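import Pool.Agent.FNA.Expand

/-! # Lifting of a simple root of a polynomial along a differential specialization -/

namespace Pool.Agent.FNA

open Pool.Agent.FN Pool.Agent.FNX

/-- division with a power of the leading coefficient -/
theorem pdiv {R : Type} [CommRing R] (P : Polynomial R) (k : ℕ) : ∀ F : Polynomial R,
    (∀ m, P.natDegree + k ≤ m → F.coeff m = 0) → ∃ (M : ℕ) (Q S : Polynomial R),
      Polynomial.C P.leadingCoeff ^ M * F = P * Q + S ∧ ∀ m, P.natDegree ≤ m → S.coeff m = 0 := by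
  induction k with
  | zero =>
    intro F hF
    exact ⟨0, 0, F, by rw [pow_zero, one_mul, mul_zero, zero_add], fun m hm => hF m (by omega)⟩
  | succ k ih =>
    intro F hF
    obtain ⟨c, hc⟩ : ∃ c, c = F.coeff (P.natDegree + k) := ⟨_, rfl⟩
    obtain ⟨M, Q, S, h1, h2⟩ := ih (Polynomial.C P.leadingCoeff * F -
      Polynomial.C c * (Polynomial.X ^ k * P)) (by
        intro m hm
        rw [Polynomial.coeff_sub, Polynomial.coeff_C_mul, Polynomial.coeff_C_mul,
          Polynomial.coeff_X_pow_mul', if_pos (by omega)]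
        rcases Nat.eq_or_lt_of_le hm with h | h
        · have h3 : m - k = P.natDegree := by omega
          rw [h3, ← h, ← hc, Polynomial.coeff_natDegree]
          ring
        · rw [hF m (by omega), Polynomial.coeff_eq_zero_of_natDegree_lt (by omega : P.natDegree < m - k)]
          ring)
    refine ⟨M + 1, Q + Polynomial.C P.leadingCoeff ^ M * Polynomial.C c * Polynomial.X ^ k, S, ?_, h2⟩
    rw [pow_succ]
    linear_combination h1

variable {K : Type} [Field K] {N : ℕ} {L : Type} [Field L] [Algebra K L]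

theorem exists_bdd {n : ℕ} (Φ : MvPolynomial (Fin n × ℕ) K) : ∃ D, Bdd D Φ :=
  ⟨Φ.totalDegree + Φ.vars.sup fun w => w.2, Nat.le_add_right _ _, fun v hv =>
    (Finset.le_sup (f := fun w : Fin n × ℕ => w.2) hv).trans (Nat.le_add_left _ _)⟩

theorem lift [IsAlgClosed L] (δ : Derivation K L L) (a b : Fin N → L) (h : Spz δ a b) (t' : L)
    {s : ℕ} (P : Polynomial (MvPolynomial (Fin N × ℕ) K)) (hP : PB s P)
    (hb : MvPolynomial.aeval (jet δ b) P.leadingCoeff ≠ 0) (hb0 : ev δ b t' P = 0)
    (hb1 : ev δ b t' (Polynomial.derivative P) ≠ 0) :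
    ∃ t, ev δ a t P = 0 ∧ Spz δ (Fin.snoc a t : Fin (N + 1) → L) (Fin.snoc b t') := by
  classical
  by_contra hcon
  push Not at hcon
  have hG : ∀ t : L, ∃ G : Polynomial (MvPolynomial (Fin N × ℕ) K), ev δ a t P = 0 →
      ev δ a t G = 0 ∧ ev δ b t' G ≠ 0 := by
    intro t
    by_cases h0 : ev δ a t P = 0
    · have h1 := hcon t h0
      unfold Spz at h1
      push Not at h1
      obtain ⟨Φ, h2, h3⟩ := h1
      obtain ⟨D, hD⟩ := exists_bdd Φ
      obtain ⟨G, -, hG⟩ := expand δ P hP Φ hD
      refine ⟨G, fun _ => ⟨?_, ?_⟩⟩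
      · rw [← hG a t h0, h2, mul_zero]
      · rw [← hG b t' hb0]
        exact mul_ne_zero (pow_ne_zero _ hb1) h3
    · exact ⟨0, fun h => absurd h h0⟩
  choose G hG using hG
  obtain ⟨φ, hφ⟩ : ∃ φ : MvPolynomial (Fin N × ℕ) K →+* L,
    φ = (MvPolynomial.aeval (jet δ a) : _ →ₐ[K] L).toRingHom := ⟨_, rfl⟩
  have hqa : φ P.leadingCoeff ≠ 0 := by
    intro h1
    rw [hφ] at h1
    exact hb (h _ h1)
  obtain ⟨p, hp⟩ : ∃ p, p = P.map φ := ⟨_, rfl⟩
  have hpd : p.natDegree = P.natDegree := by
    rw [hp]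
    exact Polynomial.natDegree_map_of_leadingCoeff_ne_zero φ hqa
  have hp0 : p ≠ 0 := by
    intro h1
    apply hqa
    have h2 := congrArg (fun q => Polynomial.coeff q P.natDegree) h1
    rw [hp] at h2
    simpa [Polynomial.coeff_map] using h2
  have hpr : ∀ t ∈ p.roots, ev δ a t P = 0 := by
    intro t ht
    rw [Polynomial.mem_roots hp0] at ht
    rw [ev_eq, ← hφ, ← hp]
    exact ht
  obtain ⟨F, hF⟩ : ∃ F, F = (p.roots.map G).prod := ⟨_, rfl⟩
  have hFb : ev δ b t' F ≠ 0 := by
    rw [hF, map_multiset_prod, Multiset.map_map]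
    refine Multiset.prod_ne_zero fun h1 => ?_
    obtain ⟨t, ht, h2⟩ := Multiset.mem_map.1 h1
    exact (hG t (hpr t ht)).2 h2
  have hFa : p ∣ F.map φ := by
    have h1 : F.map φ = (p.roots.map fun t => (G t).map φ).prod := by
      rw [hF, ← Polynomial.coe_mapRingHom, map_multiset_prod, Multiset.map_map]
      rfl
    have h2 : p = Polynomial.C p.leadingCoeff *
        (p.roots.map fun t => Polynomial.X - Polynomial.C t).prod :=
      (IsAlgClosed.splits p).eq_prod_roots
    rw [h1]
    have h3 : (p.roots.map fun t => Polynomial.X - Polynomial.C t).prod ∣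
        (p.roots.map fun t => (G t).map φ).prod := by
      refine Multiset.prod_dvd_prod_of_dvd _ _ fun t ht => ?_
      rw [Polynomial.dvd_iff_isRoot, Polynomial.IsRoot.def]
      have h4 := (hG t (hpr t ht)).1
      rwa [ev_eq, ← hφ] at h4
    obtain ⟨w, hw⟩ := h3
    have hlc : p.leadingCoeff ≠ 0 := Polynomial.leadingCoeff_ne_zero.2 hp0
    refine ⟨Polynomial.C p.leadingCoeff⁻¹ * w, ?_⟩
    rw [hw]
    nth_rewrite 2 [h2]
    have h5 : Polynomial.C p.leadingCoeff * Polynomial.C p.leadingCoeff⁻¹ = 1 := by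
      rw [← Polynomial.C_mul, mul_inv_cancel₀ hlc, Polynomial.C_1]
    linear_combination (-(p.roots.map fun t => Polynomial.X - Polynomial.C t).prod * w) * h5
  obtain ⟨M, Q, S, h1, h2⟩ := pdiv P (F.natDegree + 1) F fun m hm =>
    Polynomial.coeff_eq_zero_of_natDegree_lt (by omega)
  have hS : S.map φ = 0 := by
    have h3 : p ∣ S.map φ := by
      have h4 := congrArg (Polynomial.map φ) h1
      rw [Polynomial.map_mul, Polynomial.map_add, Polynomial.map_mul, ← hp] at h4
      have h5 : S.map φ = (Polynomial.C P.leadingCoeff ^ M).map φ * F.map φ - p * Q.map φ := by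
        rw [h4]
        ring
      rw [h5]
      exact dvd_sub (Dvd.dvd.mul_left hFa _) (dvd_mul_right _ _)
    refine Polynomial.eq_zero_of_dvd_of_degree_lt h3 ?_
    rw [Polynomial.degree_eq_natDegree hp0, hpd, Polynomial.degree_lt_iff_coeff_zero]
    intro m hm
    rw [Polynomial.coeff_map, h2 m hm, map_zero]
  have hSb : ev δ b t' S = 0 := by
    rw [ev, Polynomial.coe_eval₂RingHom, Polynomial.eval₂_eq_sum_range]
    refine Finset.sum_eq_zero fun j _ => ?_
    have h3 : MvPolynomial.aeval (jet δ a) (S.coeff j) = 0 := by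
      have h4 := congrArg (fun q => Polynomial.coeff q j) hS
      simp only [Polynomial.coeff_map, Polynomial.coeff_zero] at h4
      rw [hφ] at h4
      exact h4
    have h5 : (MvPolynomial.aeval (jet δ b) : _ →ₐ[K] L).toRingHom (S.coeff j) = 0 := h _ h3
    rw [h5, zero_mul]
  have h3 := congrArg (ev δ b t') h1
  rw [map_mul, map_add, map_mul, hb0, hSb, map_pow, ev_C, zero_mul, add_zero] at h3
  rcases mul_eq_zero.1 h3 with h4 | h4
  · exact hb (eq_zero_of_pow_eq_zero h4)
  · exact hFb h4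

end Pool.Agent.FNA
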