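import Pool.Agent.FNA.Elim
import Pool.Agent.FNA.Lift

/-! # A zero of a polynomial of bounded degree as a step of a formula: lifting and elimination -/

namespace Pool.Agent.FNA

open Pool.Agent.FN Pool.Agent.FNX

/-- a polynomial of which the given number is a simple zero -/
theorem red {K : Type} [Field K] {N : ℕ} {L : Type} [Field L] [Algebra K L] [CharZero L]
    (δ : Derivation K L L) (b : Fin N → L) (t : L) (s : ℕ)
    (V : Subalgebra K (MvPolynomial (Fin N × ℕ) K)) (n : ℕ) :
    ∀ P : Polynomial (MvPolynomial (Fin N × ℕ) K), PB s P → (∀ j, P.coeff j ∈ V) →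
      P.map (MvPolynomial.aeval (jet δ b) : _ →ₐ[K] L).toRingHom ≠ 0 →
      (P.map (MvPolynomial.aeval (jet δ b) : _ →ₐ[K] L).toRingHom).natDegree ≤ n →
      ev δ b t P = 0 → ∃ P' : Polynomial (MvPolynomial (Fin N × ℕ) K), PB s P' ∧
        (∀ j, P'.coeff j ∈ V) ∧ ev δ b t P' = 0 ∧ ev δ b t (Polynomial.derivative P') ≠ 0 ∧
        MvPolynomial.aeval (jet δ b) P'.leadingCoeff ≠ 0 := by
  classical
  obtain ⟨φ, hφ⟩ : ∃ φ : MvPolynomial (Fin N × ℕ) K →+* L,
    φ = (MvPolynomial.aeval (jet δ b) : _ →ₐ[K] L).toRingHom := ⟨_, rfl⟩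
  rw [← hφ]
  induction n with
  | zero =>
    intro P _ _ h1 h2 h3
    exfalso
    apply h1
    have h4 := Polynomial.eq_C_of_natDegree_le_zero h2
    rw [ev_eq, ← hφ, h4, Polynomial.eval_C] at h3
    rw [h4, h3, Polynomial.C_0]
  | succ n ih =>
    intro P hP hV h1 h2 h3
    by_cases h4 : ev δ b t (Polynomial.derivative P) = 0
    · refine ih (Polynomial.derivative P) hP.derivative (fun j => ?_) ?_ ?_ h4
      · rw [Polynomial.coeff_derivative]
        refine V.mul_mem (hV _) ?_
        exact V.add_mem (natCast_mem V j) V.one_mem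
      · rw [← Polynomial.derivative_map]
        intro h5
        have h6 := Polynomial.natDegree_eq_zero_of_derivative_eq_zero h5
        have h7 := Polynomial.eq_C_of_natDegree_eq_zero h6
        apply h1
        rw [ev_eq, ← hφ, h7, Polynomial.eval_C] at h3
        rw [h7, h3, Polynomial.C_0]
      · rw [← Polynomial.derivative_map]
        refine (Polynomial.natDegree_derivative_le _).trans ?_
        omega
    · obtain ⟨d, hd⟩ : ∃ d, d = (P.map φ).natDegree := ⟨_, rfl⟩
      obtain ⟨P', hP'⟩ : ∃ P' : Polynomial (MvPolynomial (Fin N × ℕ) K),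
        P' = ∑ j ∈ Finset.range (d + 1), Polynomial.monomial j (P.coeff j) := ⟨_, rfl⟩
      have hc : ∀ j, P'.coeff j = if j ≤ d then P.coeff j else 0 := by
        intro j
        rw [hP', Polynomial.finsetSum_coeff]
        simp only [Polynomial.coeff_monomial]
        rw [Finset.sum_ite_eq']
        simp only [Finset.mem_range, Nat.lt_succ_iff]
      have hm : P'.map φ = P.map φ := by
        refine Polynomial.ext fun j => ?_
        rw [Polynomial.coeff_map, Polynomial.coeff_map, hc]
        split_ifs with h5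
        · rfl
        · rw [map_zero, ← Polynomial.coeff_map,
            Polynomial.coeff_eq_zero_of_natDegree_lt (by omega)]
      have hlc : φ (P.coeff d) ≠ 0 := by
        rw [← Polynomial.coeff_map, hd]
        exact Polynomial.leadingCoeff_ne_zero.2 h1
      have hnd : P'.natDegree = d := by
        refine le_antisymm ?_ ?_
        · refine Polynomial.natDegree_le_iff_coeff_eq_zero.2 fun j hj => ?_
          rw [hc, if_neg (by omega)]
        · refine Polynomial.le_natDegree_of_ne_zero ?_
          rw [hc, if_pos le_rfl]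
          intro h5
          apply hlc
          rw [h5, map_zero]
      refine ⟨P', ⟨?_, fun j => ?_⟩, fun j => ?_, ?_, ?_, ?_⟩
      · rw [hnd, hd]
        exact (Polynomial.natDegree_map_le).trans hP.1
      · rw [hc]
        split_ifs
        · exact hP.2 j
        · exact Bdd.zero
      · rw [hc]
        split_ifs
        · exact hV j
        · exact V.zero_mem
      · rw [ev_eq, ← hφ, hm, hφ, ← ev_eq]
        exact h3
      · rw [ev_eq, ← hφ, ← Polynomial.derivative_map, hm, Polynomial.derivative_map, hφ, ← ev_eq]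
        exact h4
      · have h5 : P'.leadingCoeff = P.coeff d := by
          rw [Polynomial.leadingCoeff, hnd, hc, if_pos le_rfl]
        rw [h5]
        rw [hφ] at hlc
        exact hlc

theorem spz_alg (s N : ℕ) : ∃ E : ℕ → ℕ, ∀ {K L : Type} [Field K] [CharZero K] [Field L]
    [IsAlgClosed L] [Algebra K L] (δ : Derivation K L L) (a b : Fin N → L), Spz δ a b →
    ∀ d : ℕ, d ≤ s → ∀ c : Fin (d + 1) → Fin N, (∃ j, b (c j) ≠ 0) → ∀ β : L,
      ∑ j, b (c j) * β ^ (j : ℕ) = 0 →
      ∃ α : L, IsAlgebraic (Algebra.adjoin K (Set.range fun j => a (c j))) α ∧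
        Spz δ (Fin.snoc a α : Fin (N + 1) → L) (Fin.snoc b β) ∧
        ∀ D : ℕ, RelV δ D (Fin.snoc a α : Fin (N + 1) → L) (Fin.snoc b β) →
          RelV δ (E D) a b := by
  classical
  refine ⟨fun D => (s + 1) * ((D * (2 * D * (s + 1) + (2 * D * (s + 1) + 1 +
    D * (2 * (s + 1) + 1)))) * (s + 1) + (D * (2 * D * (s + 1) + (2 * D * (s + 1) + 1 +
    D * (2 * (s + 1) + 1)))) + 1), ?_⟩
  intro K L _ _ _ _ _ δ a b hab d hd c hc β hβ
  have hL : CharZero L := charZero_of_injective_algebraMap (algebraMap K L).injective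
  obtain ⟨P, hP⟩ : ∃ P : Polynomial (MvPolynomial (Fin N × ℕ) K),
    P = ∑ j : Fin (d + 1), Polynomial.monomial (j : ℕ) (MvPolynomial.X (c j, 0)) := ⟨_, rfl⟩
  have hcP : ∀ j : Fin (d + 1), P.coeff j = MvPolynomial.X (c j, 0) := by
    intro j
    rw [hP, Polynomial.finsetSum_coeff, Finset.sum_eq_single j]
    · rw [Polynomial.coeff_monomial, if_pos rfl]
    · intro i _ hij
      rw [Polynomial.coeff_monomial, if_neg fun h => hij (Fin.ext h)]
    · intro h
      exact absurd (Finset.mem_univ _) h
  have hcP' : ∀ j : ℕ, d < j → P.coeff j = 0 := by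
    intro j hj
    rw [hP, Polynomial.finsetSum_coeff]
    refine Finset.sum_eq_zero fun i _ => ?_
    rw [Polynomial.coeff_monomial, if_neg]
    have := i.2
    omega
  have hPB : PB (s + 1) P := by
    refine ⟨Polynomial.natDegree_le_iff_coeff_eq_zero.2 fun j hj => hcP' j (by omega), fun j => ?_⟩
    rcases Nat.lt_or_ge d j with h | h
    · rw [hcP' j h]
      exact Bdd.zero
    · have h1 := hcP ⟨j, by omega⟩
      simp only at h1
      rw [h1]
      exact Bdd.X _ (Nat.zero_le _) (by omega)
  obtain ⟨V, hV⟩ : ∃ V : Subalgebra K (MvPolynomial (Fin N × ℕ) K),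
    V = Algebra.adjoin K (Set.range fun j => MvPolynomial.X (c j, 0)) := ⟨_, rfl⟩
  have hPV : ∀ j, P.coeff j ∈ V := by
    intro j
    rcases Nat.lt_or_ge d j with h | h
    · rw [hcP' j h]
      exact V.zero_mem
    · have h1 := hcP ⟨j, by omega⟩
      simp only at h1
      rw [h1, hV]
      exact Algebra.subset_adjoin ⟨_, rfl⟩
  have hv : ∀ y : Fin N → L, ∀ j, jet δ y (j, 0) = y j := fun y j => rfl
  have hev : ∀ (y : Fin N → L) (u : L), ev δ y u P = ∑ j : Fin (d + 1), y (c j) * u ^ (j : ℕ) := by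
    intro y u
    rw [hP, map_sum]
    refine Finset.sum_congr rfl fun j _ => ?_
    rw [ev_monomial, MvPolynomial.aeval_X, hv]
  have hPne : P.map (MvPolynomial.aeval (jet δ b) : _ →ₐ[K] L).toRingHom ≠ 0 := by
    intro h
    obtain ⟨j, hj⟩ := hc
    apply hj
    have h1 := congrArg (fun q => Polynomial.coeff q j) h
    simp only [Polynomial.coeff_map, Polynomial.coeff_zero, hcP] at h1
    have h2 : (MvPolynomial.aeval (jet δ b) : _ →ₐ[K] L).toRingHom (MvPolynomial.X (c j, 0)) =
        jet δ b (c j, 0) := MvPolynomial.aeval_X _ _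
    rw [h2, hv] at h1
    exact h1
  obtain ⟨P', hPB', hPV', h1, h2, h3⟩ := red δ b β (s + 1) V _ P hPB hPV hPne le_rfl
    ((hev b β).trans hβ)
  obtain ⟨α, h4, h5⟩ := lift δ a b hab β P' hPB' h3 h1 h2
  refine ⟨α, ?_, h5, fun D hrel => elim δ a b α β P' hPB' h3 h5 h4 h1 h2 hrel _ rfl⟩
  -- the lift is algebraic
  have hmem : ∀ j, MvPolynomial.aeval (jet δ a) (P'.coeff j) ∈
      Algebra.adjoin K (Set.range fun j => a (c j)) := by
    intro j
    have h6 := hPV' j
    rw [hV] at h6
    have h7 : MvPolynomial.aeval (jet δ a) (P'.coeff j) ∈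
        (Algebra.adjoin K (Set.range fun j => (MvPolynomial.X (c j, 0) :
          MvPolynomial (Fin N × ℕ) K))).map (MvPolynomial.aeval (jet δ a)) := ⟨_, h6, rfl⟩
    rw [AlgHom.map_adjoin, ← Set.range_comp] at h7
    have h8 : (MvPolynomial.aeval (jet δ a) : MvPolynomial (Fin N × ℕ) K →ₐ[K] L) ∘
        (fun j => (MvPolynomial.X (c j, 0) : MvPolynomial (Fin N × ℕ) K)) = fun j => a (c j) := by
      funext j
      simp only [Function.comp, MvPolynomial.aeval_X]
      exact hv a _
    rw [h8] at h7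
    exact h7
  have hqa : MvPolynomial.aeval (jet δ a) P'.leadingCoeff ≠ 0 := fun h => h3 (hab _ h)
  refine ⟨∑ j ∈ Finset.range (P'.natDegree + 1),
    Polynomial.monomial j ⟨MvPolynomial.aeval (jet δ a) (P'.coeff j), hmem j⟩, ?_, ?_⟩
  · intro h6
    have h7 := congrArg (fun q => Polynomial.coeff q P'.natDegree) h6
    simp only [Polynomial.finsetSum_coeff, Polynomial.coeff_monomial, Polynomial.coeff_zero] at h7
    rw [Finset.sum_ite_eq', if_pos (Finset.mem_range.2 (Nat.lt_succ_self _))] at h7
    exact hqa (congrArg Subtype.val h7)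
  · rw [map_sum]
    rw [ev, Polynomial.coe_eval₂RingHom, Polynomial.eval₂_eq_sum_range] at h4
    rw [← h4]
    refine Finset.sum_congr rfl fun j _ => ?_
    rw [Polynomial.aeval_monomial]
    rfl

end Pool.Agent.FNA
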