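import Pool.Agent.FN.Bdd
import Pool.Agent.FNX.Defs

/-! # Algebraic steps of bounded degree: polynomials over the jet polynomials -/

namespace Pool.Agent.FNA

open Pool.Agent.FN Pool.Agent.FNX

variable {K : Type} [Field K] {N : ℕ}

/-- degree at most `m`, coefficients of degree and order at most `m` -/
def PB (m : ℕ) (G : Polynomial (MvPolynomial (Fin N × ℕ) K)) : Prop :=
  G.natDegree ≤ m ∧ ∀ j, Bdd m (G.coeff j)

variable {m m' : ℕ} {G G' : Polynomial (MvPolynomial (Fin N × ℕ) K)}

theorem PB.mono (h : m ≤ m') (hG : PB m G) : PB m' G :=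
  ⟨hG.1.trans h, fun j => (hG.2 j).mono h⟩

theorem PB.add (hG : PB m G) (hG' : PB m G') : PB m (G + G') :=
  ⟨(Polynomial.natDegree_add_le _ _).trans (max_le hG.1 hG'.1), fun j => by
    rw [Polynomial.coeff_add]
    exact (hG.2 j).add (hG'.2 j)⟩

theorem PB.neg (hG : PB m G) : PB m (-G) :=
  ⟨by rw [Polynomial.natDegree_neg]; exact hG.1, fun j => by
    rw [Polynomial.coeff_neg]
    exact (hG.2 j).neg⟩

theorem PB.sub (hG : PB m G) (hG' : PB m G') : PB m (G - G') := by
  rw [sub_eq_add_neg]
  exact hG.add hG'.neg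

theorem PB.mul (hG : PB m G) (hG' : PB m' G') : PB (m + m') (G * G') :=
  ⟨Polynomial.natDegree_mul_le.trans (add_le_add hG.1 hG'.1), fun j => by
    rw [Polynomial.coeff_mul]
    exact Bdd.sum _ _ fun x _ => (hG.2 _).mul (hG'.2 _)⟩

theorem PB.C {r : MvPolynomial (Fin N × ℕ) K} (h : Bdd m r) : PB m (Polynomial.C r) :=
  ⟨by rw [Polynomial.natDegree_C]; exact Nat.zero_le _, fun j => by
    rw [Polynomial.coeff_C]
    split_ifs
    · exact h
    · exact Bdd.zero⟩

theorem PB.zero : PB m (0 : Polynomial (MvPolynomial (Fin N × ℕ) K)) := by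
  have h := PB.C (m := m) (K := K) (N := N) (Bdd.zero)
  rwa [map_zero] at h

theorem PB.one : PB m (1 : Polynomial (MvPolynomial (Fin N × ℕ) K)) := by
  have h := PB.C (m := m) (K := K) (N := N) (Bdd.one)
  rwa [map_one] at h

theorem PB.X (h : 1 ≤ m) : PB m (Polynomial.X : Polynomial (MvPolynomial (Fin N × ℕ) K)) :=
  ⟨Polynomial.natDegree_X_le.trans h, fun j => by
    rw [Polynomial.coeff_X]
    split_ifs
    · exact Bdd.one
    · exact Bdd.zero⟩

theorem PB.pow (k : ℕ) (hG : PB m G) : PB (k * m) (G ^ k) := by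
  induction k with
  | zero => rw [pow_zero]; exact PB.one
  | succ k ih =>
    rw [pow_succ, Nat.succ_mul]
    exact ih.mul hG

theorem PB.sum {ι : Type} (s : Finset ι) (f : ι → Polynomial (MvPolynomial (Fin N × ℕ) K))
    (h : ∀ i ∈ s, PB m (f i)) : PB m (∑ i ∈ s, f i) := by
  classical
  induction s using Finset.induction_on with
  | empty => rw [Finset.sum_empty]; exact PB.zero
  | insert a s ha ih =>
    rw [Finset.sum_insert ha]
    exact (h a (Finset.mem_insert_self a s)).add (ih fun i hi => h i (Finset.mem_insert_of_mem hi))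

theorem PB.prod {ι : Type} (s : Finset ι) (f : ι → Polynomial (MvPolynomial (Fin N × ℕ) K))
    (d : ι → ℕ) (h : ∀ i ∈ s, PB (d i) (f i)) : PB (∑ i ∈ s, d i) (∏ i ∈ s, f i) := by
  classical
  induction s using Finset.induction_on with
  | empty => rw [Finset.prod_empty]; exact PB.one
  | insert a s ha ih =>
    rw [Finset.prod_insert ha, Finset.sum_insert ha]
    exact (h a (Finset.mem_insert_self a s)).mul (ih fun i hi => h i (Finset.mem_insert_of_mem hi))

theorem PB.derivative (hG : PB m G) : PB m (Polynomial.derivative G) := by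
  refine ⟨(Polynomial.natDegree_derivative_le _).trans ((Nat.sub_le _ _).trans hG.1), fun j => ?_⟩
  rw [Polynomial.coeff_derivative]
  have h1 : ((j : MvPolynomial (Fin N × ℕ) K) + 1) = MvPolynomial.C ((j : K) + 1) := by
    rw [map_add, map_one, map_natCast]
  rw [h1]
  have h2 : Bdd (m + 0) (G.coeff (j + 1) * MvPolynomial.C ((j : K) + 1)) :=
    (hG.2 (j + 1)).mul (Bdd.C _)
  exact h2

/-- the shift on the coefficients -/
noncomputable def shP (G : Polynomial (MvPolynomial (Fin N × ℕ) K)) :
    Polynomial (MvPolynomial (Fin N × ℕ) K) :=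
  ∑ j ∈ Finset.range (G.natDegree + 1), Polynomial.monomial j (sh K N (G.coeff j))

theorem coeff_shP (G : Polynomial (MvPolynomial (Fin N × ℕ) K)) (j : ℕ) :
    (shP G).coeff j = sh K N (G.coeff j) := by
  rw [shP, Polynomial.finsetSum_coeff]
  simp only [Polynomial.coeff_monomial]
  rw [Finset.sum_ite_eq']
  split_ifs with h
  · rfl
  · rw [Finset.mem_range, Nat.lt_succ_iff, not_le] at h
    rw [Polynomial.coeff_eq_zero_of_natDegree_lt h, map_zero]

theorem PB.shP (hG : PB m G) : PB (m + 1) (shP G) := by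
  refine ⟨?_, fun j => ?_⟩
  · refine Polynomial.natDegree_le_iff_coeff_eq_zero.2 fun j hj => ?_
    rw [coeff_shP, Polynomial.coeff_eq_zero_of_natDegree_lt (hG.1.trans_lt (by omega)), map_zero]
  · rw [coeff_shP]
    exact (hG.2 j).sh

theorem PB.det {r : ℕ} (M : Matrix (Fin r) (Fin r) (Polynomial (MvPolynomial (Fin N × ℕ) K)))
    (h : ∀ i j, PB m (M i j)) : PB (r * m) M.det := by
  rw [Matrix.det_apply]
  refine PB.sum _ _ fun σ _ => ?_
  have h1 : PB (r * m) (∏ i, M (σ i) i) := by
    have h2 := PB.prod Finset.univ (fun i => M (σ i) i) (fun _ => m) fun i _ => h _ _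
    rwa [Finset.sum_const, Finset.card_univ, Fintype.card_fin, smul_eq_mul] at h2
  rcases Int.units_eq_one_or (Equiv.Perm.sign σ) with h3 | h3
  · rw [h3, one_smul]
    exact h1
  · rw [h3, Units.neg_smul, one_smul]
    exact h1.neg

/-! ## Values -/

variable {L : Type} [Field L] [Algebra K L] (δ : Derivation K L L) (a : Fin N → L) (t : L)

/-- the value at the jets of `a` and at `t` -/
noncomputable def ev : Polynomial (MvPolynomial (Fin N × ℕ) K) →+* L :=
  Polynomial.eval₂RingHom (MvPolynomial.aeval (jet δ a) : _ →ₐ[K] L).toRingHom t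

theorem ev_eq (G : Polynomial (MvPolynomial (Fin N × ℕ) K)) : ev δ a t G =
    (G.map (MvPolynomial.aeval (jet δ a) : _ →ₐ[K] L).toRingHom).eval t := by
  rw [Polynomial.eval_map]
  rfl

theorem ev_C (r : MvPolynomial (Fin N × ℕ) K) :
    ev δ a t (Polynomial.C r) = MvPolynomial.aeval (jet δ a) r := by
  rw [ev, Polynomial.coe_eval₂RingHom, Polynomial.eval₂_C]
  rfl

theorem ev_X : ev δ a t Polynomial.X = t := by
  rw [ev, Polynomial.coe_eval₂RingHom, Polynomial.eval₂_X]

theorem ev_monomial (n : ℕ) (r : MvPolynomial (Fin N × ℕ) K) :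
    ev δ a t (Polynomial.monomial n r) = MvPolynomial.aeval (jet δ a) r * t ^ n := by
  rw [ev, Polynomial.coe_eval₂RingHom, Polynomial.eval₂_monomial]
  rfl

theorem shP_add (G G' : Polynomial (MvPolynomial (Fin N × ℕ) K)) :
    shP (G + G') = shP G + shP G' := by
  refine Polynomial.ext fun j => ?_
  rw [Polynomial.coeff_add, coeff_shP, coeff_shP, coeff_shP, Polynomial.coeff_add, map_add]

theorem shP_monomial (n : ℕ) (r : MvPolynomial (Fin N × ℕ) K) :
    shP (Polynomial.monomial n r) = Polynomial.monomial n (sh K N r) := by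
  refine Polynomial.ext fun j => ?_
  rw [coeff_shP, Polynomial.coeff_monomial, Polynomial.coeff_monomial]
  split_ifs
  · rfl
  · rw [map_zero]

theorem der_ev (G : Polynomial (MvPolynomial (Fin N × ℕ) K)) :
    δ (ev δ a t G) = ev δ a t (shP G) + ev δ a t (Polynomial.derivative G) * δ t := by
  induction G using Polynomial.induction_on' with
  | add G G' h h' =>
    rw [shP_add, Polynomial.derivative_add, map_add, map_add, map_add, map_add, h, h']
    ring
  | monomial n r =>
    rw [shP_monomial, Polynomial.derivative_monomial, ev_monomial, ev_monomial, ev_monomial,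
      Derivation.leibniz, Derivation.leibniz_pow, sh_aeval_jet,
      map_mul (MvPolynomial.aeval (jet δ a)), map_natCast]
    simp only [smul_eq_mul, nsmul_eq_mul]
    ring

/-- the derivatives of a root -/
theorem jets {s : ℕ} (P : Polynomial (MvPolynomial (Fin N × ℕ) K)) (hP : PB s P) (j : ℕ) :
    ∃ Q : Polynomial (MvPolynomial (Fin N × ℕ) K), PB (1 + j * (2 * s + 1)) Q ∧
      ∀ (a : Fin N → L) (t : L), ev δ a t P = 0 →
        ev δ a t (Polynomial.derivative P) ^ (2 * j) * δ^[j] t = ev δ a t Q := by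
  induction j with
  | zero =>
    refine ⟨Polynomial.X, PB.X (by omega), fun a t _ => ?_⟩
    rw [ev_X, mul_zero, pow_zero, one_mul]
    rfl
  | succ j ih =>
    obtain ⟨Q, hQ, h⟩ := ih
    obtain ⟨H, hH⟩ : ∃ H, H = Polynomial.derivative P := ⟨_, rfl⟩
    have hHB : PB s H := hH ▸ hP.derivative
    refine ⟨H ^ 2 * shP Q - H * Polynomial.derivative Q * shP P -
      Polynomial.C (MvPolynomial.C ((2 * j : ℕ) : K)) *
        ((H * shP H - Polynomial.derivative H * shP P) * Q), ?_, fun a t h0 => ?_⟩
    · refine PB.sub (PB.sub ?_ ?_) ?_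
      · refine ((hHB.pow 2).mul hQ.shP).mono ?_
        have : (j + 1) * (2 * s + 1) = j * (2 * s + 1) + (2 * s + 1) := by ring
        omega
      · refine ((hHB.mul hQ.derivative).mul hP.shP).mono ?_
        have : (j + 1) * (2 * s + 1) = j * (2 * s + 1) + (2 * s + 1) := by ring
        omega
      · have h1 : PB (s + (s + 1)) (H * shP H - Polynomial.derivative H * shP P) :=
          (hHB.mul hHB.shP).sub (hHB.derivative.mul hP.shP)
        have h2 : PB (0 + ((s + (s + 1)) + (1 + j * (2 * s + 1))))
            (Polynomial.C (MvPolynomial.C ((2 * j : ℕ) : K)) *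
              ((H * shP H - Polynomial.derivative H * shP P) * Q)) :=
          (PB.C (Bdd.C _)).mul (h1.mul hQ)
        refine h2.mono ?_
        have : (j + 1) * (2 * s + 1) = j * (2 * s + 1) + (2 * s + 1) := by ring
        omega
    · have e1 := h a t h0
      rw [← hH] at e1 ⊢
      have e2 := der_ev δ a t P
      rw [h0, map_zero, ← hH] at e2
      have e3 := congrArg δ e1
      rw [der_ev, Derivation.leibniz, Derivation.leibniz_pow, der_ev] at e3
      simp only [smul_eq_mul, nsmul_eq_mul] at e3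
      rw [Function.iterate_succ_apply']
      simp only [map_sub, map_mul, map_pow]
      rw [ev_C, MvPolynomial.aeval_C, map_natCast]
      rcases Nat.eq_zero_or_pos j with rfl | hj
      · simp only [mul_zero, Nat.cast_zero, zero_mul, add_zero, pow_zero, one_mul] at e3 e1 ⊢
        rw [e3]
        linear_combination (-(ev δ a t H) * ev δ a t (Polynomial.derivative Q)) * e2
      · obtain ⟨k, hk⟩ : ∃ k, 2 * j = k + 1 := ⟨2 * j - 1, by omega⟩
        rw [hk, Nat.add_sub_cancel] at e3
        rw [hk] at e1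
        rw [show 2 * (j + 1) = k + 3 by omega]
        have hk' : (((2 * j : ℕ) : ℕ) : L) = (((k + 1 : ℕ) : ℕ) : L) := by rw [hk]
        rw [hk']
        linear_combination (ev δ a t H) ^ 2 * e3 -
          ((k + 1 : ℕ) : L) * (ev δ a t H * (ev δ a t (shP H) +
            ev δ a t (Polynomial.derivative H) * δ t)) * e1 +
          (-(ev δ a t H) * ev δ a t (Polynomial.derivative Q) +
            ((k + 1 : ℕ) : L) * ev δ a t (Polynomial.derivative H) * ev δ a t Q) * e2

end Pool.Agent.FNA
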