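import Pool.Agent.FNA.Expand

/-! # Elimination of a root of a polynomial of bounded degree -/

namespace Pool.Agent.FNA

open Pool.Agent.FN Pool.Agent.FNX

variable {K : Type} [Field K] {N : ℕ} {L : Type} [Field L] [Algebra K L]

/-- the last variable as the zeroth jet of the last entry -/
noncomputable def em (F : Polynomial (MvPolynomial (Fin N × ℕ) K)) :
    MvPolynomial (Fin (N + 1) × ℕ) K :=
  F.eval₂ (MvPolynomial.rename (fun v : Fin N × ℕ => (Fin.castSucc v.1, v.2)) :
    MvPolynomial (Fin N × ℕ) K →ₐ[K] MvPolynomial (Fin (N + 1) × ℕ) K).toRingHom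
      (MvPolynomial.X (Fin.last N, 0))

theorem aeval_em (δ : Derivation K L L) (a : Fin N → L) (t : L)
    (F : Polynomial (MvPolynomial (Fin N × ℕ) K)) :
    MvPolynomial.aeval (jet δ (Fin.snoc a t : Fin (N + 1) → L)) (em F) = ev δ a t F := by
  have h1 : ∀ r : MvPolynomial (Fin N × ℕ) K,
      MvPolynomial.aeval (jet δ (Fin.snoc a t : Fin (N + 1) → L))
        (MvPolynomial.rename (fun v : Fin N × ℕ => (Fin.castSucc v.1, v.2)) r) =
          MvPolynomial.aeval (jet δ a) r := by
    intro r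
    rw [MvPolynomial.aeval_rename]
    congr 1
    congr 1
    funext v
    simp only [jet, Function.comp, Fin.snoc_castSucc]
  have h2 : jet δ (Fin.snoc a t : Fin (N + 1) → L) (Fin.last N, 0) = t := by
    simp only [jet, Fin.snoc_last]
    rfl
  induction F using Polynomial.induction_on' with
  | add F G hF hG =>
    have h3 : em (F + G) = em F + em G := Polynomial.eval₂_add _ _
    rw [h3, map_add, map_add, hF, hG]
  | monomial n r =>
    have h3 : em (Polynomial.monomial n r) =
        MvPolynomial.rename (fun v : Fin N × ℕ => (Fin.castSucc v.1, v.2)) r *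
          MvPolynomial.X (Fin.last N, 0) ^ n := Polynomial.eval₂_monomial _ _
    rw [h3, map_mul, map_pow, h1, MvPolynomial.aeval_X, h2, ev_monomial]

theorem spz_ev {δ : Derivation K L L} {a b : Fin N → L} {t t' : L}
    (h : Spz δ (Fin.snoc a t : Fin (N + 1) → L) (Fin.snoc b t'))
    (F : Polynomial (MvPolynomial (Fin N × ℕ) K)) (h0 : ev δ a t F = 0) : ev δ b t' F = 0 := by
  rw [← aeval_em] at h0 ⊢
  exact h _ h0

/-- the matrix of the multiplication with the leading coefficient times the root -/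
noncomputable def cmp (P : Polynomial (MvPolynomial (Fin N × ℕ) K)) :
    Matrix (Fin P.natDegree) (Fin P.natDegree) (MvPolynomial (Fin N × ℕ) K) :=
  Matrix.of fun i j => if (i : ℕ) + 1 < P.natDegree then
    (if (j : ℕ) = i + 1 then P.leadingCoeff else 0) else -P.coeff j

theorem cmp_mulVec (δ : Derivation K L L) (P : Polynomial (MvPolynomial (Fin N × ℕ) K))
    (a : Fin N → L) (t : L) (h : ev δ a t P = 0) :
    ((cmp P).map (MvPolynomial.aeval (jet δ a))).mulVec (fun i => t ^ (i : ℕ)) =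
      (MvPolynomial.aeval (jet δ a) P.leadingCoeff * t) • fun i : Fin P.natDegree => t ^ (i : ℕ) := by
  funext i
  simp only [Matrix.mulVec, dotProduct, Matrix.map_apply, cmp, Matrix.of_apply, Pi.smul_apply,
    smul_eq_mul]
  by_cases hi : (i : ℕ) + 1 < P.natDegree
  · simp only [hi, if_true]
    rw [Finset.sum_eq_single (⟨i + 1, hi⟩ : Fin P.natDegree)]
    · simp only [if_true]
      ring
    · intro j _ hj
      have : ¬ (j : ℕ) = i + 1 := fun h1 => hj (Fin.ext h1)
      rw [if_neg this, map_zero, zero_mul]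
    · intro h1
      exact absurd (Finset.mem_univ _) h1
  · simp only [hi, if_false]
    have hi' : (i : ℕ) + 1 = P.natDegree := by
      have := i.2
      omega
    have h1 : ev δ a t P = ∑ j ∈ Finset.range (P.natDegree + 1),
        MvPolynomial.aeval (jet δ a) (P.coeff j) * t ^ j := by
      rw [ev, Polynomial.coe_eval₂RingHom, Polynomial.eval₂_eq_sum_range]
      rfl
    rw [Finset.sum_range_succ, h] at h1
    rw [← Fin.sum_univ_eq_sum_range (fun j => MvPolynomial.aeval (jet δ a) (P.coeff j) * t ^ j)] at h1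
    have h2 : ∀ j : Fin P.natDegree, MvPolynomial.aeval (jet δ a) (-P.coeff j) * t ^ (j : ℕ) =
        -(MvPolynomial.aeval (jet δ a) (P.coeff j) * t ^ (j : ℕ)) := fun j => by
      rw [map_neg, neg_mul]
    rw [Finset.sum_congr rfl fun j _ => h2 j, Finset.sum_neg_distrib]
    have h3 : t * t ^ (i : ℕ) = t ^ P.natDegree :=
      (pow_succ' t (i : ℕ)).symm.trans (congrArg (fun n => t ^ n) hi')
    rw [mul_assoc, h3]
    have h4 : P.leadingCoeff = P.coeff P.natDegree := rfl
    rw [h4]
    linear_combination h1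

/-- the matrix of the multiplication with a power of the leading coefficient times `G` -/
noncomputable def mG (P G : Polynomial (MvPolynomial (Fin N × ℕ) K)) (m : ℕ) :
    Matrix (Fin P.natDegree) (Fin P.natDegree) (MvPolynomial (Fin N × ℕ) K) :=
  ∑ i ∈ Finset.range (m + 1), (P.leadingCoeff ^ (m - i) * G.coeff i) • cmp P ^ i

theorem mG_mulVec (δ : Derivation K L L) (P G : Polynomial (MvPolynomial (Fin N × ℕ) K)) (m : ℕ)
    (hG : G.natDegree ≤ m) (a : Fin N → L) (t : L) (h : ev δ a t P = 0) :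
    ((mG P G m).map (MvPolynomial.aeval (jet δ a))).mulVec (fun i => t ^ (i : ℕ)) =
      (MvPolynomial.aeval (jet δ a) P.leadingCoeff ^ m * ev δ a t G) •
        fun i : Fin P.natDegree => t ^ (i : ℕ) := by
  obtain ⟨φ, hφ⟩ : ∃ φ : MvPolynomial (Fin N × ℕ) K →ₐ[K] L, φ = MvPolynomial.aeval (jet δ a) :=
    ⟨_, rfl⟩
  have h1 := cmp_mulVec δ P a t h
  rw [← hφ] at h1 ⊢
  obtain ⟨v, hv⟩ : ∃ v : Fin P.natDegree → L, v = fun i : Fin P.natDegree => t ^ (i : ℕ) :=
    ⟨_, rfl⟩
  rw [← hv] at h1 ⊢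
  obtain ⟨M, hM⟩ : ∃ M : Matrix (Fin P.natDegree) (Fin P.natDegree) L, M = (cmp P).map φ := ⟨_, rfl⟩
  rw [← hM] at h1
  have h2 : ∀ i : ℕ, (M ^ i).mulVec v = (φ P.leadingCoeff * t) ^ i • v := by
    intro i
    induction i with
    | zero => rw [pow_zero, pow_zero, Matrix.one_mulVec, one_smul]
    | succ i ih =>
      rw [pow_succ, ← Matrix.mulVec_mulVec, h1, Matrix.mulVec_smul, ih, smul_smul, pow_succ,
        mul_comm]
  have h3 : (mG P G m).map φ = ∑ i ∈ Finset.range (m + 1),
      (φ P.leadingCoeff ^ (m - i) * φ (G.coeff i)) • M ^ i := by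
    have h4 : (mG P G m).map φ = φ.mapMatrix (mG P G m) := rfl
    rw [h4, mG, map_sum]
    refine Finset.sum_congr rfl fun i _ => ?_
    have h5 : φ.mapMatrix (cmp P ^ i) = M ^ i := by
      rw [map_pow, hM]
      rfl
    rw [← h5, ← map_pow, ← map_mul]
    ext j k
    simp only [AlgHom.mapMatrix_apply, Matrix.map_apply, Matrix.smul_apply, smul_eq_mul, map_mul]
  rw [h3, Matrix.sum_mulVec]
  have h6 : ev δ a t G = ∑ i ∈ Finset.range (m + 1), φ (G.coeff i) * t ^ i := by
    rw [ev, Polynomial.coe_eval₂RingHom, Polynomial.eval₂_eq_sum_range' _ (Nat.lt_succ_of_le hG), hφ]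
    rfl
  rw [h6, Finset.mul_sum, Finset.sum_smul]
  refine Finset.sum_congr rfl fun i hi => ?_
  rw [Matrix.smul_mulVec, h2, smul_smul]
  congr 1
  have h7 : m = (m - i) + i := by
    have := Finset.mem_range.1 hi
    omega
  rw [mul_pow]
  nth_rewrite 2 [h7]
  rw [pow_add]
  ring

theorem bdd_cmp {s : ℕ} {P : Polynomial (MvPolynomial (Fin N × ℕ) K)} (hP : PB s P) (i : ℕ) :
    ∀ j k, Bdd (i * s) ((cmp P ^ i) j k) := by
  induction i with
  | zero =>
    intro j k
    rw [pow_zero, Matrix.one_apply]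
    split_ifs
    · exact Bdd.one
    · exact Bdd.zero
  | succ i ih =>
    intro j k
    rw [pow_succ, Matrix.mul_apply, Nat.succ_mul]
    refine Bdd.sum _ _ fun l _ => (ih j l).mul ?_
    simp only [cmp, Matrix.of_apply]
    split_ifs
    · exact hP.2 _
    · exact Bdd.zero
    · exact (hP.2 _).neg

theorem bdd_mG {s m : ℕ} {P G : Polynomial (MvPolynomial (Fin N × ℕ) K)} (hP : PB s P)
    (hG : PB m G) : ∀ j k, Bdd (m * s + m) (mG P G m j k) := by
  intro j k
  rw [mG, Matrix.sum_apply]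
  refine Bdd.sum _ _ fun i hi => ?_
  rw [Matrix.smul_apply, smul_eq_mul]
  have h1 : Bdd s P.leadingCoeff := hP.2 _
  refine (((h1.pow (m - i)).mul (hG.2 i)).mul (bdd_cmp hP i j k)).mono ?_
  have h2 : (m - i) * s + i * s = m * s := by
    rw [← Nat.add_mul, Nat.sub_add_cancel]
    have := Finset.mem_range.1 hi
    omega
  omega

/-- a root of a polynomial of bounded degree can be eliminated -/
theorem elim {s D : ℕ} (δ : Derivation K L L) (a b : Fin N → L) (t t' : L)
    (P : Polynomial (MvPolynomial (Fin N × ℕ) K)) (hP : PB s P)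
    (hb : MvPolynomial.aeval (jet δ b) P.leadingCoeff ≠ 0)
    (hs : Spz δ (Fin.snoc a t : Fin (N + 1) → L) (Fin.snoc b t'))
    (ha0 : ev δ a t P = 0) (hb0 : ev δ b t' P = 0)
    (hb1 : ev δ b t' (Polynomial.derivative P) ≠ 0)
    (hrel : RelV δ D (Fin.snoc a t : Fin (N + 1) → L) (Fin.snoc b t')) :
    ∀ m, m = D * (2 * D * s + (2 * D * s + 1 + D * (2 * s + 1))) →
      RelV δ (s * (m * s + m + 1)) a b := by
  classical
  intro m hm
  obtain ⟨Φ, hΦ, hΦa, hΦb⟩ := hrel
  obtain ⟨G, hG, hGv⟩ := expand δ P hP Φ hΦ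
  rw [← hm] at hG
  have ha1 : ev δ a t (Polynomial.derivative P) ≠ 0 := fun h => hb1 (spz_ev hs _ h)
  have hq : MvPolynomial.aeval (jet δ a) P.leadingCoeff ≠ 0 := by
    intro h
    apply hb
    rw [← ev_C δ a t] at h
    rw [← ev_C δ b t']
    exact spz_ev hs _ h
  have hGa : ev δ a t G ≠ 0 := by
    rw [← hGv a t ha0]
    exact mul_ne_zero (pow_ne_zero _ ha1) hΦa
  have hGb : ev δ b t' G = 0 := by
    rw [← hGv b t' hb0, hΦb, mul_zero]
  -- positive degree
  have hdeg : 0 < P.natDegree := by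
    by_contra hcon
    have h1 : P.natDegree = 0 := by omega
    apply hb1
    rw [Polynomial.eq_C_of_natDegree_eq_zero h1, Polynomial.derivative_C, map_zero]
  obtain ⟨χ, hχ⟩ : ∃ χ, χ = (mG P G m).charpoly := ⟨_, rfl⟩
  have hχB : PB (s * (m * s + m + 1)) χ := by
    have h1 : PB (P.natDegree * (m * s + m + 1)) χ := by
      rw [hχ, Matrix.charpoly]
      refine PB.det _ fun i j => ?_
      rw [Matrix.charmatrix_apply, Matrix.diagonal_apply]
      refine PB.sub ?_ (PB.C ((bdd_mG hP hG i j).mono (Nat.le_succ _)))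
      split_ifs
      · exact PB.X (by omega)
      · exact PB.zero
    exact h1.mono (Nat.mul_le_mul_right _ hP.1)
  -- the value of the polynomial at the eigenvalue
  have hroot : ∀ (y : Fin N → L) (u : L), ev δ y u P = 0 →
      (χ.map (MvPolynomial.aeval (jet δ y) : _ →ₐ[K] L).toRingHom).eval
        (MvPolynomial.aeval (jet δ y) P.leadingCoeff ^ m * ev δ y u G) = 0 := by
    intro y u h0
    have h1 := mG_mulVec δ P G m hG.1 y u h0
    rw [hχ, ← Matrix.charpoly_map, Matrix.eval_charpoly]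
    refine Matrix.exists_mulVec_eq_zero_iff.1 ⟨fun i => u ^ (i : ℕ), ?_, ?_⟩
    · intro h2
      have h3 := congrFun h2 (⟨0, hdeg⟩ : Fin P.natDegree)
      simp at h3
    · rw [Matrix.sub_mulVec, sub_eq_zero]
      refine Eq.trans ?_ h1.symm
      rw [Matrix.scalar_apply]
      funext i
      rw [Matrix.mulVec_diagonal]
      rfl
  -- the first coefficient which does not vanish at `a`
  have hex : ∃ r, MvPolynomial.aeval (jet δ a) (χ.coeff r) ≠ 0 := by
    refine ⟨χ.natDegree, ?_⟩
    have h1 : χ.Monic := hχ ▸ Matrix.charpoly_monic _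
    have h2 : χ.coeff χ.natDegree = 1 := h1
    rw [h2, map_one]
    exact one_ne_zero
  obtain ⟨r, hr, hmin⟩ : ∃ r, MvPolynomial.aeval (jet δ a) (χ.coeff r) ≠ 0 ∧
      ∀ j < r, MvPolynomial.aeval (jet δ a) (χ.coeff j) = 0 :=
    ⟨Nat.find hex, Nat.find_spec hex, fun j hj => by
      have := Nat.find_min hex hj
      push Not at this
      exact this⟩
  -- the relation
  obtain ⟨Λ, hΛ⟩ : ∃ Λ : Polynomial (MvPolynomial (Fin N × ℕ) K),
      Λ = Polynomial.C P.leadingCoeff ^ m * G := ⟨_, rfl⟩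
  have hΛv : ∀ (y : Fin N → L) (u : L), ev δ y u Λ =
      MvPolynomial.aeval (jet δ y) P.leadingCoeff ^ m * ev δ y u G := by
    intro y u
    rw [hΛ, map_mul, map_pow, ev_C]
  have hrd : r ≤ χ.natDegree := by
    by_contra hcon
    apply hr
    rw [Polynomial.coeff_eq_zero_of_natDegree_lt (by omega), map_zero]
  obtain ⟨F, hF⟩ : ∃ F : Polynomial (MvPolynomial (Fin N × ℕ) K),
      F = ∑ j ∈ Finset.range (χ.natDegree - r + 1), Polynomial.C (χ.coeff (r + j)) * Λ ^ j := ⟨_, rfl⟩
  have hFv : ∀ (y : Fin N → L) (u : L), ev δ y u F = ∑ j ∈ Finset.range (χ.natDegree - r + 1),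
      MvPolynomial.aeval (jet δ y) (χ.coeff (r + j)) * ev δ y u Λ ^ j := by
    intro y u
    rw [hF, map_sum]
    refine Finset.sum_congr rfl fun j _ => ?_
    rw [map_mul, map_pow, ev_C]
  have hFa : ev δ a t F = 0 := by
    have h1 := hroot a t ha0
    rw [← hΛv, Polynomial.eval_map, Polynomial.eval₂_eq_sum_range] at h1
    have h2 : ev δ a t Λ ^ r * ev δ a t F = 0 := by
      rw [← h1, hFv, Finset.mul_sum]
      have h3 : χ.natDegree + 1 = r + (χ.natDegree - r + 1) := by omega
      rw [h3, Finset.sum_range_add _ r (χ.natDegree - r + 1)]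
      have h4 : ∑ x ∈ Finset.range r, (MvPolynomial.aeval (jet δ a) : _ →ₐ[K] L).toRingHom
          (χ.coeff x) * ev δ a t Λ ^ x = 0 := by
        refine Finset.sum_eq_zero fun j hj => ?_
        have h5 : (MvPolynomial.aeval (jet δ a) : _ →ₐ[K] L).toRingHom (χ.coeff j) = 0 :=
          hmin j (Finset.mem_range.1 hj)
        rw [h5, zero_mul]
      rw [h4, zero_add]
      refine Finset.sum_congr rfl fun j _ => ?_
      rw [pow_add]
      have h5 : (MvPolynomial.aeval (jet δ a) : _ →ₐ[K] L).toRingHom (χ.coeff (r + j)) =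
        MvPolynomial.aeval (jet δ a) (χ.coeff (r + j)) := rfl
      rw [h5]
      ring
    rcases mul_eq_zero.1 h2 with h3 | h3
    · exfalso
      have h4 := eq_zero_of_pow_eq_zero h3
      rw [hΛv] at h4
      exact (mul_ne_zero (pow_ne_zero _ hq) hGa) h4
    · exact h3
  refine ⟨χ.coeff r, hχB.2 r, hr, ?_⟩
  have h1 := spz_ev hs F hFa
  rw [hFv, Finset.sum_range_succ'] at h1
  have h2 : ev δ b t' Λ = 0 := by rw [hΛv, hGb, mul_zero]
  rw [h2, Finset.sum_eq_zero (fun j _ => by rw [pow_succ, mul_zero, mul_zero]), zero_add, pow_zero,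
    mul_one, add_zero] at h1
  exact h1

end Pool.Agent.FNA
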