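import Pool.Agent.FNA.Basic

/-! # A jet polynomial in a root as a polynomial in the root -/

namespace Pool.Agent.FNA

open Pool.Agent.FN Pool.Agent.FNX

variable {K : Type} [Field K] {N : ℕ} {L : Type} [Field L] [Algebra K L] (δ : Derivation K L L)

theorem expand {s D : ℕ} (P : Polynomial (MvPolynomial (Fin N × ℕ) K)) (hP : PB s P)
    (Φ : MvPolynomial (Fin (N + 1) × ℕ) K) (hΦ : Bdd D Φ) :
    ∃ G : Polynomial (MvPolynomial (Fin N × ℕ) K),
      PB (D * (2 * D * s + (2 * D * s + 1 + D * (2 * s + 1)))) G ∧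
      ∀ (a : Fin N → L) (t : L), ev δ a t P = 0 →
        ev δ a t (Polynomial.derivative P) ^ (2 * D * D) *
          MvPolynomial.aeval (jet δ (Fin.snoc a t : Fin (N + 1) → L)) Φ = ev δ a t G := by
  classical
  obtain ⟨H, hH⟩ : ∃ H, H = Polynomial.derivative P := ⟨_, rfl⟩
  have hHB : PB s H := hH ▸ hP.derivative
  obtain ⟨y, hy⟩ : ∃ y, y = 2 * D * s + 1 + D * (2 * s + 1) := ⟨_, rfl⟩
  rw [← hH, ← hy]
  have hvar : ∀ v : Fin (N + 1) × ℕ, ∃ Y : Polynomial (MvPolynomial (Fin N × ℕ) K), PB y Y ∧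
      (v.2 ≤ D → ∀ (a : Fin N → L) (t : L), ev δ a t P = 0 →
        ev δ a t H ^ (2 * D) * jet δ (Fin.snoc a t : Fin (N + 1) → L) v = ev δ a t Y) := by
    rintro ⟨i, c⟩
    by_cases hc : c ≤ D
    · refine Fin.lastCases ?_ (fun i => ?_) i
      · obtain ⟨Q, hQ, h⟩ := jets δ P hP c
        refine ⟨H ^ (2 * D - 2 * c) * Q, ?_, fun _ a t h0 => ?_⟩
        · refine ((hHB.pow _).mul hQ).mono ?_
          have h1 : (2 * D - 2 * c) * s ≤ 2 * D * s := Nat.mul_le_mul_right _ (Nat.sub_le _ _)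
          have h2 : c * (2 * s + 1) ≤ D * (2 * s + 1) := Nat.mul_le_mul_right _ hc
          omega
        · have h1 := h a t h0
          rw [← hH] at h1
          have h2 : jet δ (Fin.snoc a t : Fin (N + 1) → L) (Fin.last N, c) = δ^[c] t := by
            simp only [jet, Fin.snoc_last]
          have h3 : 2 * D = (2 * D - 2 * c) + 2 * c := by omega
          rw [h2, map_mul, map_pow, ← h1]
          nth_rewrite 1 [h3]
          rw [pow_add]
          ring
      · refine ⟨H ^ (2 * D) * Polynomial.C (MvPolynomial.X (i, c)), ?_, fun _ a t h0 => ?_⟩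
        · have h1 : PB (D + 1) (Polynomial.C (MvPolynomial.X (i, c) :
              MvPolynomial (Fin N × ℕ) K)) := PB.C (Bdd.X _ (by simp only; omega) (by omega))
          refine ((hHB.pow _).mul h1).mono ?_
          have h2 : D * (2 * s + 1) = D * (2 * s) + D := by ring
          omega
        · have h2 : jet δ (Fin.snoc a t : Fin (N + 1) → L) (Fin.castSucc i, c) = δ^[c] (a i) := by
            simp only [jet, Fin.snoc_castSucc]
          rw [h2, map_mul, map_pow, ev_C, MvPolynomial.aeval_X]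
          rfl
    · exact ⟨0, PB.zero, fun h => absurd h hc⟩
  choose Y hY hYv using hvar
  refine ⟨∑ μ ∈ Φ.support, Polynomial.C (MvPolynomial.C (Φ.coeff μ)) *
    (H ^ (2 * D * (D - μ.degree)) * ∏ v ∈ μ.support, Y v ^ μ v), ?_, fun a t h0 => ?_⟩
  · refine PB.sum _ _ fun μ hμ => ?_
    have hk : μ.degree ≤ D := (MvPolynomial.le_totalDegree hμ).trans hΦ.1
    have h1 : PB (∑ v ∈ μ.support, μ v * y) (∏ v ∈ μ.support, Y v ^ μ v) :=
      PB.prod _ _ _ fun v _ => (hY v).pow _
    have h2 := (PB.C (m := 0) (N := N) (Bdd.C (Φ.coeff μ))).mul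
      ((hHB.pow (2 * D * (D - μ.degree))).mul h1)
    refine h2.mono ?_
    have h3 : ∑ v ∈ μ.support, μ v * y = μ.degree * y := by
      rw [← Finset.sum_mul]
      rfl
    rw [h3, zero_add]
    have h4 : 2 * D * (D - μ.degree) * s ≤ D * (2 * D * s) := by
      calc 2 * D * (D - μ.degree) * s ≤ 2 * D * D * s :=
            Nat.mul_le_mul_right _ (Nat.mul_le_mul_left _ (Nat.sub_le _ _))
        _ = D * (2 * D * s) := by ring
    have h5 : μ.degree * y ≤ D * y := Nat.mul_le_mul_right _ hk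
    calc _ ≤ D * (2 * D * s) + D * y := Nat.add_le_add h4 h5
      _ = D * (2 * D * s + y) := by ring
  · rw [MvPolynomial.aeval_def, MvPolynomial.eval₂_eq, Finset.mul_sum, map_sum]
    refine Finset.sum_congr rfl fun μ hμ => ?_
    have hk : μ.degree ≤ D := (MvPolynomial.le_totalDegree hμ).trans hΦ.1
    have h1 : ∏ v ∈ μ.support, ev δ a t (Y v) ^ μ v = (ev δ a t H ^ (2 * D)) ^ μ.degree *
        ∏ v ∈ μ.support, jet δ (Fin.snoc a t : Fin (N + 1) → L) v ^ μ v := by
      have h2 : μ.degree = ∑ v ∈ μ.support, μ v := rfl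
      rw [h2, ← Finset.prod_pow_eq_pow_sum, ← Finset.prod_mul_distrib]
      refine Finset.prod_congr rfl fun v hv => ?_
      rw [← hYv v (hΦ.2 v ((MvPolynomial.mem_vars_iff_mem_support v).2 ⟨μ, hμ, hv⟩)) a t h0, mul_pow]
    rw [map_mul, map_mul, map_prod, map_pow, ev_C, MvPolynomial.aeval_C]
    simp only [map_pow]
    rw [h1]
    have h3 : 2 * D * D = 2 * D * (D - μ.degree) + 2 * D * μ.degree := by
      rw [← Nat.mul_add, Nat.sub_add_cancel hk]
    rw [h3, pow_add, pow_mul (ev δ a t H) (2 * D) μ.degree]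
    ring

end Pool.Agent.FNA
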